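import Pool.Agent.W5h38.LG.Tower

/-!
# Lindelöf spaces with `G_δ` points of cardinality greater than the continuum

Q1: there is (in ZFC) a Lindelöf space with `G_δ` points of cardinality greater than the continuum.

Construction: let `Y 0` be any set without free countably complete ultrafilters, for instance the
power set of the real line, let `Y (n + 1)` consist of `Y n` and of all free ultrafilters on the set
`Y n`, and let `X` be the union. A subset `W` of `X` is open if `W ∩ Y n` belongs to every free
ultrafilter on `Y n` which is a point of `W`, for all `n`. Every countably complete filter on `X`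
has a trace on some `Y n`, and an ultrafilter which contains this trace is a cluster point. So `X` is
Lindelöf. For the `G_δ` points one shows by induction on `n` that along every free ultrafilter
on `Y n` some lower semicontinuous function with values in the natural numbers tends to infinity.
The space `X` is not Hausdorff.
-/

set_option autoImplicit false

namespace Pool.Agent.W5h38.LG.Main

open Pool.Agent.W5h38.LG Filter Topology

/-- `NM` from countably complete ultrafilters. -/
theorem nm_of {A : Type} (h : ∀ V : Ultrafilter A, CountableInterFilter (V : Filter A) →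
    ∃ a, ({a} : Set A) ∈ V) : NM A := by
  classical
  intro V hV
  by_contra hc
  have h1 : CountableInterFilter (V : Filter A) := by
    refine ⟨?_⟩
    intro S hS hSV
    by_contra hn
    apply hc
    rcases S.eq_empty_or_nonempty with he | hne
    · rw [he, Set.sInter_empty] at hn
      exact absurd Filter.univ_mem hn
    obtain ⟨f, hf⟩ := hS.exists_eq_range hne
    have hfV : ∀ k, f k ∈ V := fun k => hSV _ (by rw [hf]; exact ⟨k, rfl⟩)
    have hex : ∀ a : A, a ∉ ⋂₀ S → ∃ k, a ∉ f k := by
      intro a ha
      by_contra hh
      push Not at hh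
      apply ha
      intro s hs
      rw [hf] at hs
      obtain ⟨k, rfl⟩ := hs
      exact hh k
    refine ⟨fun a => if ha : a ∉ ⋂₀ S then Nat.find (hex a ha) else 0, fun m => ?_⟩
    have h2 : (⋂₀ S)ᶜ ∈ V := Ultrafilter.compl_mem_iff_notMem.2 hn
    have h3 : (⋂ k ∈ Set.Iic m, f k) ∈ (V : Filter A) :=
      (Filter.biInter_mem (Set.finite_Iic m)).2 fun k _ => hfV k
    filter_upwards [h2, h3] with a ha1 ha2
    have ha1' : a ∉ ⋂₀ S := ha1
    change m < (if ha : a ∉ ⋂₀ S then Nat.find (hex a ha) else 0)
    rw [dif_pos ha1']
    by_contra hle
    push Not at hle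
    have h4 := Nat.find_spec (hex a ha1')
    exact h4 (Set.mem_iInter₂.1 ha2 _ hle)
  obtain ⟨a, ha⟩ := h V h1
  exact hV a ha

/-- In a Lindelöf space with `G_δ` points every countably complete ultrafilter is principal. -/
theorem principal_of_lindelof {X : Type} [TopologicalSpace X] [LindelofSpace X]
    (hG : ∀ x : X, IsGδ ({x} : Set X)) (W : Ultrafilter X)
    (hW : CountableInterFilter (W : Filter X)) : ∃ x, ({x} : Set X) ∈ W := by
  obtain ⟨x, _, hx⟩ := (isLindelof_univ (X := X)) (f := (W : Filter X)) (by simp)
  refine ⟨x, ?_⟩
  have h1 : (W : Filter X) ≤ 𝓝 x := Ultrafilter.clusterPt_iff.1 hx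
  obtain ⟨T, hTo, hTc, hT⟩ := hG x
  rw [hT]
  refine (countable_sInter_mem hTc).2 fun t ht => ?_
  apply h1
  refine (hTo t ht).mem_nhds ?_
  have h2 : x ∈ ⋂₀ T := by
    rw [← hT]
    rfl
  exact h2 t ht

/-- **Q1.** (1) There is a Lindelöf topological space, all points of which are `G_δ` sets, whose
cardinality is greater than the continuum.

(2) More precisely, a set `A` can be embedded in a Lindelöf topological space with `G_δ` points
if and only if every countably complete ultrafilter on `A` is principal; so there are such spaces of
arbitrarily large cardinalities below the first measurable cardinal. -/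
theorem result :
    (∃ (X : Type) (_ : TopologicalSpace X), LindelofSpace X ∧ (∀ x : X, IsGδ ({x} : Set X)) ∧
      Cardinal.continuum < Cardinal.mk X) ∧
    (∀ A : Type, (∃ (X : Type) (_ : TopologicalSpace X), LindelofSpace X ∧
        (∀ x : X, IsGδ ({x} : Set X)) ∧ ∃ f : A → X, Function.Injective f) ↔
      ∀ V : Ultrafilter A, CountableInterFilter (V : Filter A) → ∃ a, ({a} : Set A) ∈ V) := by
  constructor
  · refine ⟨X (Set (Set ℕ)), inferInstance, inferInstance,
      isGδ_singleton (nm_set (nm_set nm_nat)), ?_⟩
    have h1 : Cardinal.mk (Set (Set ℕ)) ≤ Cardinal.mk (X (Set (Set ℕ))) :=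
      Cardinal.mk_le_of_injective (emb_injective (A := Set (Set ℕ)) 0)
    refine lt_of_lt_of_le ?_ h1
    rw [Cardinal.mk_set, Cardinal.mk_set, Cardinal.mk_nat, Cardinal.two_power_aleph0]
    exact Cardinal.cantor _
  · intro A
    constructor
    · rintro ⟨X, _, hL, hG, f, hf⟩ V hV
      have h1 : CountableInterFilter ((V.map f : Ultrafilter X) : Filter X) := by
        rw [Ultrafilter.coe_map]
        infer_instance
      obtain ⟨x, hx⟩ := principal_of_lindelof hG (V.map f) h1
      have h2 : f ⁻¹' {x} ∈ V := hx
      obtain ⟨a, ha⟩ := V.nonempty_of_mem h2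
      refine ⟨a, V.sets_of_superset h2 ?_⟩
      intro b hb
      exact hf ((show f b = x from hb).trans (show f a = x from ha).symm)
    · intro h
      exact ⟨X A, inferInstance, inferInstance, isGδ_singleton (nm_of h),
        emb 0, emb_injective (A := A) 0⟩

end Pool.Agent.W5h38.LG.Main
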