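import Mathlib

/-!
# Sets on which all free ultrafilters are unbounded

`NM T`: for every free ultrafilter on `T` there is a function `T → ℕ` which tends to infinity along
the ultrafilter (no free ultrafilter on `T` is countably complete). We prove that this holds for
the natural numbers and is inherited by power sets, subsets and disjoint unions.
-/

set_option autoImplicit false

namespace Pool.Agent.W5h38.LG

open Set Filter

/-- A free ultrafilter. -/
def IsFree {T : Type} (V : Ultrafilter T) : Prop := ∀ t : T, ({t} : Set T) ∉ V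

/-- The type of the free ultrafilters on `T`. -/
abbrev Free (T : Type) : Type := {V : Ultrafilter T // IsFree V}

/-- Every free ultrafilter is unbounded along some function to the natural numbers. -/
def NM (T : Type) : Prop :=
  ∀ V : Ultrafilter T, IsFree V → ∃ c : T → ℕ, ∀ m : ℕ, {t | m < c t} ∈ V

theorem nm_nat : NM ℕ := by
  intro V hV
  refine ⟨id, fun m => ?_⟩
  have h : (V : Filter ℕ) ≤ cofinite := by
    rw [le_cofinite_iff_compl_singleton_mem]
    intro x
    exact Ultrafilter.compl_mem_iff_notMem.2 (hV x)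
  have h2 : {t : ℕ | m < id t} ∈ (cofinite : Filter ℕ) := by
    rw [Nat.cofinite_eq_atTop]
    exact eventually_gt_atTop m
  exact h h2

theorem IsFree.nonempty {T : Type} {V : Ultrafilter T} (_ : IsFree V) : Nonempty T := by
  by_contra h
  rw [not_nonempty_iff] at h
  have h1 : (∅ : Set T) ∈ V := by
    have h2 : (univ : Set T) ∈ V := univ_mem
    rwa [univ_eq_empty_iff.2 h] at h2
  exact V.empty_notMem h1

theorem nm_set {T : Type} (hT : NM T) : NM (Set T) := by
  classical
  intro V hV
  set A : Set T := {t | {x : Set T | t ∈ x} ∈ V} with hA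
  have hE : ∀ t, {x : Set T | (t ∈ x ↔ t ∈ A)} ∈ V := by
    intro t
    by_cases ht : t ∈ A
    · filter_upwards [(show {x : Set T | t ∈ x} ∈ V from ht)] with x hx
      exact ⟨fun _ => ht, fun _ => hx⟩
    · have h1 : {x : Set T | t ∈ x}ᶜ ∈ V := Ultrafilter.compl_mem_iff_notMem.2 ht
      filter_upwards [h1] with x hx
      exact ⟨fun h => absurd h hx, fun h => absurd h ht⟩
  have hne : {x : Set T | x ≠ A} ∈ V := Ultrafilter.compl_mem_iff_notMem.2 (hV A)
  have hT0 : Nonempty T := by
    by_contra h
    rw [not_nonempty_iff] at h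
    obtain ⟨x, hx⟩ := V.nonempty_of_mem hne
    exact hx (Subsingleton.elim _ _)
  have hex : ∀ x : Set T, ∃ t : T, x ≠ A → ¬ (t ∈ x ↔ t ∈ A) := by
    intro x
    by_cases hx : x = A
    · exact ⟨hT0.some, fun h => absurd hx h⟩
    · have : ∃ t, ¬ (t ∈ x ↔ t ∈ A) := by
        by_contra hc
        push Not at hc
        exact hx (Set.ext hc)
      obtain ⟨t, ht⟩ := this
      exact ⟨t, fun _ => ht⟩
  choose φ hφ using hex
  have hW : IsFree (V.map φ) := by
    intro t0 ht0
    have h1 : φ ⁻¹' {t0} ∈ V := ht0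
    have h2 : φ ⁻¹' {t0} ∩ {x : Set T | x ≠ A} ∩ {x : Set T | (t0 ∈ x ↔ t0 ∈ A)} ∈ V :=
      inter_mem (inter_mem h1 hne) (hE t0)
    obtain ⟨x, ⟨hx1, hx2⟩, hx3⟩ := V.nonempty_of_mem h2
    have h4 : φ x = t0 := hx1
    apply hφ x hx2
    rw [h4]
    exact hx3
  obtain ⟨c, hc⟩ := hT _ hW
  exact ⟨fun x => c (φ x), fun m => hc m⟩

theorem nm_of_injective {S T : Type} {f : S → T} (hf : Function.Injective f) (hT : NM T) :
    NM S := by
  intro V hV
  have hW : IsFree (V.map f) := by
    intro t ht
    have h1 : f ⁻¹' {t} ∈ V := ht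
    obtain ⟨s, hs⟩ := V.nonempty_of_mem h1
    have h2 : f ⁻¹' {t} = {s} := by
      ext x
      simp only [mem_preimage, mem_singleton_iff] at hs ⊢
      rw [← hs]
      exact hf.eq_iff
    rw [h2] at h1
    exact hV s h1
  obtain ⟨c, hc⟩ := hT _ hW
  exact ⟨fun x => c (f x), fun m => hc m⟩

theorem isFree_comap {S T : Type} {f : S → T} (hf : Function.Injective f) {V : Ultrafilter T}
    (hV : IsFree V) (hr : range f ∈ V) : IsFree (V.comap hf hr) := by
  intro s hs
  rw [Ultrafilter.mem_comap] at hs
  rw [image_singleton] at hs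
  exact hV _ hs

theorem nm_sum {S T : Type} (hS : NM S) (hT : NM T) : NM (S ⊕ T) := by
  intro V hV
  have h : range (Sum.inl : S → S ⊕ T) ∪ range (Sum.inr : T → S ⊕ T) ∈ V := by
    rw [range_inl_union_range_inr]
    exact univ_mem
  rcases Ultrafilter.union_mem_iff.1 h with h1 | h1
  · obtain ⟨c, hc⟩ := hS _ (isFree_comap Sum.inl_injective hV h1)
    refine ⟨Sum.elim c fun _ => 0, fun m => ?_⟩
    have h2 := hc m
    rw [Ultrafilter.mem_comap] at h2
    refine V.sets_of_superset h2 ?_
    rintro _ ⟨x, hx, rfl⟩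
    exact hx
  · obtain ⟨c, hc⟩ := hT _ (isFree_comap Sum.inr_injective hV h1)
    refine ⟨Sum.elim (fun _ => 0) c, fun m => ?_⟩
    have h2 := hc m
    rw [Ultrafilter.mem_comap] at h2
    refine V.sets_of_superset h2 ?_
    rintro _ ⟨x, hx, rfl⟩
    exact hx

theorem nm_free {T : Type} (hT : NM T) : NM (Free T) := by
  have hinj : Function.Injective (fun z : Free T => {s : Set T | s ∈ z.1}) := by
    intro z w h
    apply Subtype.ext
    apply Ultrafilter.ext
    intro s
    have := Set.ext_iff.1 h s
    exact this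
  exact nm_of_injective hinj (nm_set (nm_set hT))

end Pool.Agent.W5h38.LG
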