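import Pool.Agent.W5h38.LG.NonMeas

/-!
# The iterated free ultrafilter extension of a set

`Y A 0 = A` and `Y A (n + 1)` is `Y A n` together with all free ultrafilters on `Y A n`; `X A` is the
union of all `Y A n`. A subset `W` of `X A` is open if for each of its points which is a free
ultrafilter on `Y A n` (a point of level `n + 1`) the trace of `W` on `Y A n` belongs to this
ultrafilter. The space `X A` is Lindelöf. If all free ultrafilters on `A` are unbounded (`NM A`), then
all points of `X A` are `G_δ` sets.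
-/

set_option autoImplicit false

namespace Pool.Agent.W5h38.LG

open Set Filter Topology

/-- The stages. -/
def Y (A : Type) : ℕ → Type
  | 0 => A
  | n + 1 => Y A n ⊕ Free (Y A n)

/-- The points which are new at stage `n`. -/
def N (A : Type) : ℕ → Type
  | 0 => A
  | n + 1 => Free (Y A n)

/-- The union of all stages. -/
def X (A : Type) : Type := Σ n, N A n

/-- A point of level `n + 1`. -/
def pt {A : Type} (n : ℕ) (U : Free (Y A n)) : X A := ⟨n + 1, U⟩

/-- The inclusion of a stage. -/
def emb {A : Type} : (n : ℕ) → Y A n → X A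
  | 0, a => ⟨0, a⟩
  | n + 1, Sum.inl y => emb n y
  | n + 1, Sum.inr U => pt n U

theorem nm_Y {A : Type} (hA : NM A) : ∀ n, NM (Y A n)
  | 0 => hA
  | n + 1 => nm_sum (nm_Y hA n) (nm_free (nm_Y hA n))

/-- The lower semicontinuous functions on a stage. -/
def L {A : Type} : (n : ℕ) → (Y A n → ℕ) → Prop
  | 0, _ => True
  | n + 1, g => L n (fun y => g (Sum.inl y)) ∧
      ∀ (U : Free (Y A n)) (m : ℕ), m < g (Sum.inr U) → {y | m < g (Sum.inl y)} ∈ U.1

/-- Each free ultrafilter on a stage is unbounded along some lower semicontinuous function. -/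
theorem exists_unbounded {A : Type} (hA : NM A) : ∀ (n : ℕ) (V : Free (Y A n)),
    ∃ h : Y A n → ℕ, L n h ∧ ∀ m : ℕ, {y | m < h y} ∈ V.1
  | 0, V => by
      obtain ⟨c, hc⟩ := hA V.1 V.2
      exact ⟨c, trivial, hc⟩
  | n + 1, V => by
      classical
      obtain ⟨V, hV⟩ := V
      have hu : range (Sum.inl : Y A n → Y A n ⊕ Free (Y A n)) ∪
          range (Sum.inr : Free (Y A n) → Y A n ⊕ Free (Y A n)) ∈ V := by
        rw [range_inl_union_range_inr]
        exact univ_mem
      rcases Ultrafilter.union_mem_iff.1 hu with h1 | h1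
      · obtain ⟨h, hL, hh⟩ := exists_unbounded hA n ⟨_, isFree_comap Sum.inl_injective hV h1⟩
        refine ⟨Sum.elim h fun _ => 0, ⟨hL, fun U m hm => absurd hm (Nat.not_lt_zero m)⟩,
          fun m => ?_⟩
        have h2 := hh m
        change {y | m < h y} ∈ V.comap Sum.inl_injective h1 at h2
        rw [Ultrafilter.mem_comap] at h2
        refine V.sets_of_superset h2 ?_
        rintro _ ⟨x, hx, rfl⟩
        exact hx
      · have hV' := isFree_comap Sum.inr_injective hV h1
        set V' : Ultrafilter (Free (Y A n)) := V.comap Sum.inr_injective h1 with hV'def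
        have key : ∀ S : Set (Free (Y A n)), S ∈ V' →
            ∀ T : Set (Y A n ⊕ Free (Y A n)), (∀ z ∈ S, Sum.inr z ∈ T) → T ∈ V := by
          intro S hS T hST
          rw [hV'def, Ultrafilter.mem_comap] at hS
          refine V.sets_of_superset hS ?_
          rintro _ ⟨x, hx, rfl⟩
          exact hST x hx
        have hmem : ∀ S : Set (Y A n), S ∈ Ultrafilter.bind V' (fun z => z.1) ↔
            {z : Free (Y A n) | S ∈ z.1} ∈ V' := by
          intro S
          exact Filter.mem_bind'
        have hJ : IsFree (Ultrafilter.bind V' (fun z => z.1)) := by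
          intro y hy
          rw [hmem] at hy
          obtain ⟨z, hz⟩ := V'.nonempty_of_mem hy
          exact z.2 y hz
        obtain ⟨h, hL, hh⟩ := exists_unbounded hA n ⟨_, hJ⟩
        have hh' : ∀ m, {z : Free (Y A n) | {y | m < h y} ∈ z.1} ∈ V' := fun m =>
          (hmem _).1 (hh m)
        by_cases hS : {z : Free (Y A n) | ∀ m, {y | m < h y} ∈ z.1} ∈ V'
        · obtain ⟨c, hc⟩ := nm_free (nm_Y hA n) V' hV'
          refine ⟨Sum.elim h fun z => if ∀ m, {y | m < h y} ∈ z.1 then c z else 0,
            ⟨hL, fun U m hm => ?_⟩, fun m => ?_⟩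
          · by_cases hU : ∀ m, {y | m < h y} ∈ U.1
            · exact hU m
            · simp only [Sum.elim_inr] at hm
              rw [if_neg hU] at hm
              exact absurd hm (Nat.not_lt_zero m)
          · refine key _ (inter_mem hS (hc m)) _ ?_
            rintro z ⟨hz1, hz2⟩
            change m < (if ∀ m, {y | m < h y} ∈ z.1 then c z else 0)
            have hz1' : ∀ m, {y | m < h y} ∈ z.1 := hz1
            rw [if_pos hz1']
            exact hz2
        · have hS' : {z : Free (Y A n) | ∀ m, {y | m < h y} ∈ z.1}ᶜ ∈ V' :=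
            Ultrafilter.compl_mem_iff_notMem.2 hS
          have hfind : ∀ z : Free (Y A n), ∃ k : ℕ, (¬ ∀ m, {y | m < h y} ∈ z.1) →
              (∀ m, m < k → {y | m < h y} ∈ z.1) ∧ {y | k < h y} ∉ z.1 := by
            intro z
            by_cases hz : ∀ m, {y | m < h y} ∈ z.1
            · exact ⟨0, fun h => absurd hz h⟩
            · have hz' : ∃ m, {y | m < h y} ∉ z.1 := by
                push Not at hz
                exact hz
              refine ⟨Nat.find hz', fun _ => ⟨fun m hm => ?_, Nat.find_spec hz'⟩⟩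
              by_contra hc
              exact Nat.find_min hz' hm hc
          choose k hk using hfind
          refine ⟨Sum.elim h fun z => if ∀ m, {y | m < h y} ∈ z.1 then 0 else k z,
            ⟨hL, fun U m hm => ?_⟩, fun m => ?_⟩
          · by_cases hU : ∀ m, {y | m < h y} ∈ U.1
            · exact hU m
            · simp only [Sum.elim_inr] at hm
              rw [if_neg hU] at hm
              exact (hk U hU).1 m hm
          · refine key _ (inter_mem hS' (hh' m)) _ ?_
            rintro z ⟨hz1, hz2⟩
            change m < (if ∀ m, {y | m < h y} ∈ z.1 then 0 else k z)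
            have hz1' : ¬ ∀ m, {y | m < h y} ∈ z.1 := hz1
            rw [if_neg hz1']
            by_contra hc
            push Not at hc
            apply (hk z hz1').2
            refine z.1.sets_of_superset hz2 ?_
            intro y hy
            exact lt_of_le_of_lt hc hy

/-- The topology of `X A`. -/
instance (A : Type) : TopologicalSpace (X A) where
  IsOpen W := ∀ (n : ℕ) (U : Free (Y A n)), pt n U ∈ W → emb n ⁻¹' W ∈ U.1
  isOpen_univ := fun _ _ _ => univ_mem
  isOpen_inter := fun W W' h h' n U hU => inter_mem (h n U hU.1) (h' n U hU.2)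
  isOpen_sUnion := fun S hS n U hU => by
    obtain ⟨W, hW, hU'⟩ := hU
    refine U.1.sets_of_superset (hS W hW n U hU') ?_
    intro y hy
    exact ⟨W, hW, hy⟩

theorem isOpen_iff' {A : Type} (W : Set (X A)) :
    IsOpen W ↔ ∀ (n : ℕ) (U : Free (Y A n)), pt n U ∈ W → emb n ⁻¹' W ∈ U.1 := Iff.rfl

theorem emb_fst_le {A : Type} : ∀ (n : ℕ) (y : Y A n), (emb n y).1 ≤ n
  | 0, _ => le_rfl
  | n + 1, Sum.inl y => (emb_fst_le n y).trans (Nat.le_succ n)
  | _ + 1, Sum.inr _ => le_rfl

theorem emb_injective {A : Type} : ∀ n : ℕ, Function.Injective (emb n : Y A n → X A)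
  | 0 => by
      intro a b h
      have h' : (⟨0, a⟩ : X A) = ⟨0, b⟩ := h
      exact eq_of_heq (Sigma.mk.inj h').2
  | n + 1 => by
      intro a b h
      rcases a with a | a <;> rcases b with b | b
      · rw [emb_injective n (show emb n a = emb n b from h)]
      · exfalso
        have h1 := emb_fst_le n a
        have h2 : (emb n a : X A) = pt n b := h
        rw [h2] at h1
        exact absurd h1 (Nat.not_succ_le_self n)
      · exfalso
        have h1 := emb_fst_le n b
        have h2 : pt n a = (emb n b : X A) := h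
        rw [← h2] at h1
        exact absurd h1 (Nat.not_succ_le_self n)
      · have h' : pt n a = pt n b := h
        have h2 : (⟨n + 1, a⟩ : X A) = ⟨n + 1, b⟩ := h'
        rw [show a = b from eq_of_heq (Sigma.mk.inj h2).2]

/-- Every point lies in a stage. -/
theorem exists_emb {A : Type} (x : X A) : ∃ (n : ℕ) (y : Y A n), emb n y = x := by
  obtain ⟨n, z⟩ := x
  cases n with
  | zero => exact ⟨0, z, rfl⟩
  | succ n => exact ⟨n + 1, Sum.inr z, rfl⟩

/-- `X A` is a Lindelöf space. -/
instance lindelof (A : Type) : LindelofSpace (X A) := by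
  refine ⟨?_⟩
  intro f _ _ _
  have h1 : ∃ n : ℕ, (range (emb n : Y A n → X A))ᶜ ∉ f := by
    by_contra hc
    push Not at hc
    have h2 : (⋂ n : ℕ, (range (emb n : Y A n → X A))ᶜ) ∈ f := countable_iInter_mem.2 hc
    obtain ⟨x, hx⟩ := Filter.nonempty_of_mem h2
    obtain ⟨n, y, hy⟩ := exists_emb x
    exact (mem_iInter.1 hx n) ⟨y, hy⟩
  obtain ⟨n, hn⟩ := h1
  have hne : (comap (emb n : Y A n → X A) f).NeBot := by
    rw [comap_neBot_iff_compl_range]
    exact hn
  set V : Ultrafilter (Y A n) := Ultrafilter.of (comap (emb n) f) with hV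
  have hVf : map (emb n : Y A n → X A) V ≤ f := by
    rw [map_le_iff_le_comap]
    exact Ultrafilter.of_le _
  by_cases hfree : IsFree V
  · refine ⟨pt n ⟨V, hfree⟩, mem_univ _, ?_⟩
    have h3 : map (emb n : Y A n → X A) V ≤ 𝓝 (pt n ⟨V, hfree⟩) := by
      intro W hW
      obtain ⟨W', hW', hWo, hx⟩ := mem_nhds_iff.1 hW
      exact mem_map.2 (mem_of_superset (hWo n ⟨V, hfree⟩ hx) (preimage_mono hW'))
    exact NeBot.mono inferInstance (le_inf h3 hVf)
  · have : ∃ y, ({y} : Set (Y A n)) ∈ V := by
      unfold IsFree at hfree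
      push Not at hfree
      exact hfree
    obtain ⟨y, hy⟩ := this
    refine ⟨emb n y, mem_univ _, ?_⟩
    have h3 : map (emb n : Y A n → X A) V ≤ 𝓝 (emb n y) := by
      intro W hW
      refine mem_map.2 (mem_of_superset hy ?_)
      intro w hw
      have hw' : w = y := hw
      change emb n w ∈ W
      rw [hw']
      exact mem_of_mem_nhds hW
    exact NeBot.mono inferInstance (le_inf h3 hVf)

/-- The trace of a set `{m < h}`, `h` lower semicontinuous. -/
theorem key {A : Type} (m : ℕ) : ∀ (n : ℕ) (h : Y A n → ℕ), L n h → ∀ (y : Y A n) (k : ℕ)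
    (U : Free (Y A k)), emb n y = pt k U → m < h y →
    emb k ⁻¹' (emb n '' {y | m < h y}) ∈ U.1
  | 0, h, _, y, k, U, he, _ => by
      exfalso
      have h1 : (⟨0, y⟩ : X A) = ⟨k + 1, U⟩ := he
      have h2 : 0 = k + 1 := (Sigma.mk.inj h1).1
      exact absurd h2 (Nat.succ_ne_zero k).symm
  | n + 1, h, hL, Sum.inl y, k, U, he, hm => by
      have h1 := key m n (fun y => h (Sum.inl y)) hL.1 y k U he hm
      refine U.1.sets_of_superset h1 ?_
      rintro z ⟨w, hw, hwz⟩
      exact ⟨Sum.inl w, hw, hwz⟩
  | n + 1, h, hL, Sum.inr V, k, U, he, hm => by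
      have h1 : (⟨n + 1, V⟩ : X A) = ⟨k + 1, U⟩ := he
      have h2 : n = k := Nat.succ_injective (Sigma.mk.inj h1).1
      subst h2
      have h3 : V = U := eq_of_heq (Sigma.mk.inj h1).2
      subst h3
      refine V.1.sets_of_superset (hL.2 V m hm) ?_
      intro z hz
      exact ⟨Sum.inl z, hz, rfl⟩

/-- The points of `X A` are `G_δ` sets. -/
theorem isGδ_singleton {A : Type} (hA : NM A) (x : X A) : IsGδ ({x} : Set (X A)) := by
  obtain ⟨n, z⟩ := x
  cases n with
  | zero =>
    refine IsOpen.isGδ ?_
    intro k U hU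
    exfalso
    have h1 : (⟨k + 1, U⟩ : X A) = ⟨0, z⟩ := hU
    exact absurd (Sigma.mk.inj h1).1 (Nat.succ_ne_zero k)
  | succ n =>
    obtain ⟨h, hL, hh⟩ := exists_unbounded hA n z
    have hopen : ∀ m : ℕ, IsOpen (insert (pt n z) (emb n '' {y | m < h y}) : Set (X A)) := by
      intro m k U hU
      rcases hU with hU | hU
      · have h1 : (⟨k + 1, U⟩ : X A) = ⟨n + 1, z⟩ := hU
        have h2 : k = n := Nat.succ_injective (Sigma.mk.inj h1).1
        subst h2
        have h3 : U = z := eq_of_heq (Sigma.mk.inj h1).2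
        subst h3
        refine U.1.sets_of_superset (hh m) ?_
        intro y hy
        exact mem_insert_of_mem _ ⟨y, hy, rfl⟩
      · obtain ⟨y, hy, hyU⟩ := hU
        refine U.1.sets_of_superset (key m n h hL y k U hyU hy) ?_
        intro w hw
        exact mem_insert_of_mem _ hw
    have heq : ({pt n z} : Set (X A)) =
        ⋂ m : ℕ, insert (pt n z) (emb n '' {y | m < h y}) := by
      apply Subset.antisymm
      · rintro _ rfl
        exact mem_iInter.2 fun m => mem_insert _ _
      · intro x hx
        by_contra hne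
        have hx' : ∀ m : ℕ, x ∈ emb n '' {y | m < h y} := fun m =>
          (mem_iInter.1 hx m).resolve_left hne
        obtain ⟨y, _, hyx⟩ := hx' 0
        obtain ⟨y', hy', hyx'⟩ := hx' (h y)
        have : y' = y := emb_injective n (hyx'.trans hyx.symm)
        rw [this] at hy'
        exact lt_irrefl (h y) hy'
    change IsGδ ({pt n z} : Set (X A))
    rw [heq]
    exact IsGδ.iInter fun m => (hopen m).isGδ

end Pool.Agent.W5h38.LG
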